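import Pool.Agent.Helper43.CH.Hom

/-! Project CHI. The field `O(x, y, w)`, `y ^ 2 = x ^ 3 + A(w ^ m) x + B(w ^ m)`, its
homomorphisms. -/

set_option autoImplicit false

namespace Pool.Agent.Helper43.CH

open IntermediateField Polynomial

/-- `E = O(x, y, w)`, where `x`, `w` are algebraically independent and
`y ^ 2 = x ^ 3 + A(w ^ m) * x + B(w ^ m)`. -/
structure IsModel (O : Type) {E : Type} [Field O] [Field E] [Algebra O E] (m : ℕ)
    (A B : O[X]) (x y w : E) : Prop where
  ind : AlgebraicIndependent O ![x, w]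
  eqn : y ^ 2 = x ^ 3 + aeval (w ^ m) A * x + aeval (w ^ m) B
  gen : adjoin O {x, y, w} = ⊤

section

variable {O E F : Type} [Field O] [Field E] [Algebra O E] [Field F] [Algebra O F]

/-- the right hand side of the equation -/
noncomputable def cub (m : ℕ) (A B : O[X]) : MvPolynomial (Fin 2) O :=
  MvPolynomial.X 0 ^ 3 + aeval (MvPolynomial.X 1 ^ m : MvPolynomial (Fin 2) O) A *
    MvPolynomial.X 0 + aeval (MvPolynomial.X 1 ^ m : MvPolynomial (Fin 2) O) B

theorem aeval_cub (m : ℕ) (A B : O[X]) (x w : E) : MvPolynomial.aeval ![x, w] (cub m A B) =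
    x ^ 3 + aeval (w ^ m) A * x + aeval (w ^ m) B := by
  rw [cub, map_add, map_add, map_mul, map_pow, MvPolynomial.aeval_X, ← aeval_algHom_apply,
    ← aeval_algHom_apply, map_pow, MvPolynomial.aeval_X]
  rfl

theorem not_sq (m : ℕ) (A B : O[X]) (p q : MvPolynomial (Fin 2) O) (hq : q ≠ 0) :
    p ^ 2 ≠ cub m A B * q ^ 2 := by
  intro h
  obtain ⟨f, h3, h4⟩ : ∃ f : MvPolynomial (Fin 2) O ≃ₐ[O] (MvPolynomial (Fin 1) O)[X],
      f (MvPolynomial.X 0) = X ∧ f (MvPolynomial.X 1) = C (MvPolynomial.X 0) :=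
    ⟨MvPolynomial.finSuccEquiv O 1, MvPolynomial.finSuccEquiv_X_zero,
      MvPolynomial.finSuccEquiv_X_succ (j := (0 : Fin 1))⟩
  have h1 := congrArg f h
  rw [map_pow, map_mul, map_pow] at h1
  have h5 : ∀ G : O[X], f (aeval (MvPolynomial.X 1 ^ m : MvPolynomial (Fin 2) O) G) =
      C (aeval (MvPolynomial.X 0 ^ m : MvPolynomial (Fin 1) O) G) := by
    intro G
    have h6 := aeval_algHom_apply f.toAlgHom (MvPolynomial.X 1 ^ m : MvPolynomial (Fin 2) O) G
    have h7 := aeval_algebraMap_apply ((MvPolynomial (Fin 1) O)[X])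
      (MvPolynomial.X 0 ^ m : MvPolynomial (Fin 1) O) G
    change aeval (f (MvPolynomial.X 1 ^ m)) G = f (aeval _ G) at h6
    rw [← h6, map_pow, h4, ← C_pow]
    exact h7
  have h2 : f (cub m A B) = X ^ 3 + C (aeval (MvPolynomial.X 0 ^ m : MvPolynomial (Fin 1) O) A) * X
      + C (aeval (MvPolynomial.X 0 ^ m : MvPolynomial (Fin 1) O) B) := by
    rw [cub, map_add, map_add, map_mul, map_pow, h3, h5, h5]
  have h3 : (f (cub m A B)).natDegree = 3 := by
    rw [h2]
    compute_degree!
  have hq' : f q ≠ 0 := (_root_.map_ne_zero_iff f f.injective).2 hq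
  have hG : f (cub m A B) ≠ 0 := by
    intro h0
    rw [h0, natDegree_zero] at h3
    omega
  have h4 := congrArg natDegree h1
  rw [natDegree_pow, natDegree_mul hG (pow_ne_zero 2 hq'), natDegree_pow, h3] at h4
  omega

theorem IsModel.gen' {m : ℕ} {A B : O[X]} {x y w : E} (h : IsModel O m A B x y w) :
    adjoin O (insert y (Set.range ![x, w])) = ⊤ := by
  have h1 : insert y (Set.range ![x, w]) = {x, y, w} := by
    ext z
    simp only [Matrix.range_cons, Matrix.range_empty, Set.union_empty, Set.mem_insert_iff,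
      Set.mem_union, Set.mem_singleton_iff]
    tauto
  rw [h1, h.gen]

/-- homomorphisms -/
theorem IsModel.exists_hom {m : ℕ} {A B : O[X]} {x y w : E} (h : IsModel O m A B x y w)
    {x' y' w' : F} (hi : AlgebraicIndependent O ![x', w'])
    (he : y' ^ 2 = x' ^ 3 + aeval (w' ^ m) A * x' + aeval (w' ^ m) B) :
    ∃ φ : E →ₐ[O] F, φ x = x' ∧ φ y = y' ∧ φ w = w' := by
  obtain ⟨φ, h1, h2⟩ := Pool.Agent.Helper43.CH.exists_hom (cub m A B) (not_sq m A B) h.ind
    (by rw [h.eqn, aeval_cub]) h.gen' hi (by rw [he, aeval_cub])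
  exact ⟨φ, h1 0, h2, h1 1⟩

/-- two homomorphisms which agree on the generators -/
theorem IsModel.ext {m : ℕ} {A B : O[X]} {x y w : E} (h : IsModel O m A B x y w)
    {φ ψ : E →ₐ[O] F} (hx : φ x = ψ x) (hy : φ y = ψ y) (hw : φ w = ψ w) : φ = ψ := by
  apply AlgHom.ext
  intro z
  have hz : z ∈ adjoin O {x, y, w} := by rw [h.gen]; trivial
  induction hz using adjoin_induction with
  | mem z hz =>
    rcases hz with rfl | rfl | rfl
    · exact hx
    · exact hy
    · exact hw
  | algebraMap c => rw [AlgHom.commutes, AlgHom.commutes]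
  | add x y _ _ hx hy => rw [map_add, map_add, hx, hy]
  | inv x _ hx => rw [map_inv₀, map_inv₀, hx]
  | mul x y _ _ hx hy => rw [map_mul, map_mul, hx, hy]

/-- elements over which a field of the same transcendence degree is algebraic are independent -/
theorem indep_of_algebraic {ι : Type} [Finite ι] {x x' : ι → E} (hx : AlgebraicIndependent O x)
    {S : Set E} (hS : adjoin O S = ⊤)
    (h : ∀ z ∈ S, IsAlgebraic (adjoin O (Set.range x')) z) : AlgebraicIndependent O x' := by
  have h1 : ∀ z : E, IsAlgebraic (adjoin O (Set.range x')) z := by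
    intro z
    have hz : z ∈ adjoin O S := by rw [hS]; trivial
    have h2 : adjoin O S ≤ (algebraicClosure (adjoin O (Set.range x')) E).restrictScalars O :=
      adjoin_le_iff.2 fun z hz => mem_algebraicClosure_iff.2 (h z hz)
    exact mem_algebraicClosure_iff.1 (h2 hz)
  have h2 : Algebra.IsAlgebraic (adjoin O (Set.range x')) E := ⟨h1⟩
  have h3 : Algebra.IsAlgebraic (Algebra.adjoin O (Set.range x')) E :=
    isAlgebraic_adjoin_iff_top.1 h2
  exact (Algebra.IsAlgebraic.isTranscendenceBasis_of_le_trdeg_of_finite O x'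
    hx.cardinalMk_le_trdeg).1

/-- independent elements of the field `O(x, y, w)` -/
theorem IsModel.indep {m : ℕ} {A B : O[X]} {x y w : E} (h : IsModel O m A B x y w) {x' w' : E}
    (hx : IsAlgebraic (adjoin O {x', w'}) x) (hw : IsAlgebraic (adjoin O {x', w'}) w) :
    AlgebraicIndependent O ![x', w'] := by
  have hr : Set.range ![x', w'] = {x', w'} := by
    ext z
    simp only [Matrix.range_cons, Matrix.range_empty, Set.union_empty, Set.mem_insert_iff,
      Set.mem_union, Set.mem_singleton_iff]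
  refine indep_of_algebraic h.ind h.gen ?_
  rw [hr]
  have key : y ∈ algebraicClosure (adjoin O {x', w'}) E := by
    rw [mem_algebraicClosure_iff]
    apply IsAlgebraic.of_pow (n := 2) (by norm_num)
    rw [← mem_algebraicClosure_iff] at hx hw ⊢
    have hp : ∀ G : O[X], aeval (w ^ m) G ∈ algebraicClosure (adjoin O {x', w'}) E := by
      intro G
      rw [aeval_eq_sum_range]
      refine sum_mem fun i _ => ?_
      rw [Algebra.smul_def, IsScalarTower.algebraMap_apply O (adjoin O {x', w'}) E]
      exact mul_mem (IntermediateField.algebraMap_mem _ _) (pow_mem (pow_mem hw m) i)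
    rw [h.eqn]
    exact add_mem (add_mem (pow_mem hx 3) (mul_mem (hp A) hx)) (hp B)
  rintro z (rfl | rfl | rfl)
  · exact hx
  · exact mem_algebraicClosure_iff.1 key
  · exact hw

end

end Pool.Agent.Helper43.CH
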