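import Pool.Agent.Helper43.AC7.Defs
import Pool.Agent.Helper9.CHI.Defs

/-! Project CHI. The rules. -/

set_option autoImplicit false

namespace Pool.Agent.Helper43.CH

open IntermediateField Pool.Agent.Helper43.AC7 Pool.Agent.Helper9.CHI

/-- A class of extensions of `O` with the formal properties of the class of all extensions for which
the function fields contained in it belong to curves and surfaces with a motive whose Frobenius
endomorphism satisfies an equation. -/
structure IsMotivic (O : Type) [Field O] (P : (K : Type) → [Field K] → [Algebra O K] → Prop) :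
    Prop where
  /-- subfields -/
  sub : ∀ (K K₀ : Type) [Field K] [Algebra O K] [Field K₀] [Algebra O K₀], (K₀ →ₐ[O] K) →
    P K → P K₀
  /-- products of curves -/
  product : ∀ (K : Type) [Field K] [Algebra O K], IsProduct O K → P K
  /-- the decomposition of the motive of an abelian cover -/
  abelian : HasAbelian O P
  /-- the eigenparts of an automorphism `s` which is conjugate to its inverse -/
  voisin : ∀ (M : Type) [Field M] [Algebra O M] (s : M ≃ₐ[O] M) (m : ℕ) (ψ : M →ₐ[O] M),
    Algebra.trdeg O M ≤ 2 → (⊤ : IntermediateField O M).FG → s ^ m = 1 → m ≠ 0 →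
    P (fixedField (Subgroup.zpowers s)) → (∀ z, ψ (s z) = s.symm (ψ z)) →
    HasVoisinChi O M s m → P M

end Pool.Agent.Helper43.CH
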