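import Pool.Agent.Helper43.CH.Psi
import Pool.Agent.Helper9.TR.Surface
import Pool.Agent.Helper9.TR.Three

/-! Project CHI. The field `O(x, y, w)`, `y ^ 2 = x ^ 3 + A(w ^ m) x + B(w ^ m)`: the fixed field of
`w ↦ ζ w` is `O(x, y, w ^ m)`, the function field of a rational surface if `deg A ≤ 4`,
`deg B ≤ 6`. -/

set_option autoImplicit false

namespace Pool.Agent.Helper43.CH

open IntermediateField Polynomial

section fix

variable {O E : Type} [Field O] [Field E] [Algebra O E] {m : ℕ} {A B : O[X]} {x y w : E}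
  {s : E ≃ₐ[O] E} {ζ : O}

theorem geom_zero {F : Type} [Field F] {η : F} (h : η ^ m = 1) (h1 : η ≠ 1) :
    ∑ k ∈ Finset.range m, η ^ k = 0 := by
  have h2 := mul_geom_sum η m
  rw [h, sub_self] at h2
  exact (mul_eq_zero.1 h2).resolve_left (sub_ne_zero.2 h1)

/-- the fixed field -/
theorem IsModel.fixed (h : IsModel O m A B x y w) (hm : (m : O) ≠ 0) (hζ : IsPrimitiveRoot ζ m)
    (hx : s x = x) (hy : s y = y) (hw : s w = algebraMap O E ζ * w) {z : E} (hz : s z = z) :
    z ∈ adjoin O {x, y, w ^ m} := by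
  set R := adjoin O {x, y, w ^ m} with hR
  have mw : w ^ m ∈ R := subset_adjoin O _ (Or.inr (Or.inr rfl))
  -- the powers of `s` are linear over `R`
  have hfix : ∀ k : ℕ, ∀ r ∈ R, (s ^ k) r = r := by
    intro k r hr
    induction k with
    | zero => rfl
    | succ k ih =>
      rw [pow_succ]
      change (s ^ k) (s r) = r
      have h1 : s r = r := by
        clear ih
        induction hr using adjoin_induction with
        | mem z hz =>
          rcases hz with rfl | rfl | rfl
          · exact hx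
          · exact hy
          · rw [map_pow, hw, mul_pow, ← map_pow, hζ.pow_eq_one, map_one, one_mul]
        | algebraMap c => rw [AlgEquiv.commutes]
        | add x y _ _ hx hy => rw [map_add, hx, hy]
        | inv x _ hx => rw [map_inv₀, hx]
        | mul x y _ _ hx hy => rw [map_mul, hx, hy]
      rw [h1, ih]
  have hk : ∀ k : ℕ, (s ^ k) w = algebraMap O E ζ ^ k * w := by
    intro k
    induction k with
    | zero => rw [pow_zero, pow_zero, one_mul]; rfl
    | succ k ih =>
      rw [pow_succ]
      change (s ^ k) (s w) = _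
      rw [hw, map_mul, AlgEquiv.commutes, ih]
      ring
  have hm0 : m ≠ 0 := by
    rintro rfl
    exact hm Nat.cast_zero
  -- `E = R[w]`
  have hint : IsIntegral R w := by
    refine ⟨X ^ m - C ⟨w ^ m, mw⟩, monic_X_pow_sub_C _ hm0, ?_⟩
    rw [← aeval_def, map_sub, map_pow, aeval_X, aeval_C, sub_eq_zero]
    rfl
  have htop : z ∈ adjoin R {w} := by
    have h1 : z ∈ adjoin O {x, y, w} := by rw [h.gen]; trivial
    have h2 : adjoin O {x, y, w} ≤ (adjoin R {w}).restrictScalars O := by
      rw [adjoin_le_iff]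
      rintro a (ha | ha | ha)
      · rw [ha]
        exact (adjoin R {w}).algebraMap_mem ⟨x, subset_adjoin O _ (Or.inl rfl)⟩
      · rw [ha]
        exact (adjoin R {w}).algebraMap_mem ⟨y, subset_adjoin O _ (Or.inr (Or.inl rfl))⟩
      · rw [ha]
        exact mem_adjoin_simple_self R w
    exact h2 h1
  rw [← mem_toSubalgebra, adjoin_simple_toSubalgebra_of_isAlgebraic hint.isAlgebraic,
    Algebra.adjoin_singleton_eq_range_aeval] at htop
  obtain ⟨P, hP⟩ := htop
  have hsum : ∑ k ∈ Finset.range m, (s ^ k) z = (m : E) * z := by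
    have h1 : ∀ k : ℕ, (s ^ k) z = z := by
      intro k
      induction k with
      | zero => rfl
      | succ k ih =>
        rw [pow_succ]
        change (s ^ k) (s z) = z
        rw [hz, ih]
    rw [Finset.sum_congr rfl fun k _ => h1 k, Finset.sum_const, Finset.card_range, nsmul_eq_mul]
  have hmem : ∑ k ∈ Finset.range m, (s ^ k) z ∈ R := by
    have h1 : z = ∑ i ∈ Finset.range (P.natDegree + 1), (P.coeff i : E) * w ^ i := by
      rw [← hP]
      change aeval w P = _
      rw [aeval_eq_sum_range]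
      rfl
    have h2 : ∀ k : ℕ, (s ^ k) z = ∑ i ∈ Finset.range (P.natDegree + 1),
        (P.coeff i : E) * (w ^ i * (algebraMap O E ζ ^ i) ^ k) := by
      intro k
      conv_lhs => rw [h1]
      rw [map_sum]
      refine Finset.sum_congr rfl fun i _ => ?_
      rw [map_mul, hfix k _ (P.coeff i).2, map_pow, hk, mul_pow, ← pow_mul, ← pow_mul,
        mul_comm k, mul_comm (w ^ i)]
    rw [Finset.sum_congr rfl fun k _ => h2 k, Finset.sum_comm]
    refine sum_mem fun i _ => ?_
    rw [← Finset.mul_sum, ← Finset.mul_sum]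
    refine mul_mem (P.coeff i).2 ?_
    by_cases hi : m ∣ i
    · obtain ⟨l, rfl⟩ := hi
      refine mul_mem ?_ (sum_mem fun k _ => pow_mem (pow_mem (R.algebraMap_mem ζ) _) _)
      rw [pow_mul]
      exact pow_mem mw l
    · have h3 : (algebraMap O E ζ ^ i) ^ m = 1 := by
        rw [← pow_mul, mul_comm, pow_mul, ← map_pow, hζ.pow_eq_one, map_one, one_pow]
      have h4 : algebraMap O E ζ ^ i ≠ 1 := by
        intro h4
        rw [← map_pow, ← (algebraMap O E).map_one] at h4
        exact hi (hζ.dvd_of_pow_eq_one i ((algebraMap O E).injective h4))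
      rw [geom_zero h3 h4, mul_zero]
      exact zero_mem _
  rw [hsum] at hmem
  have hmE : (m : E) ≠ 0 := by
    rw [← map_natCast (algebraMap O E)]
    exact (_root_.map_ne_zero _).2 hm
  have h3 : (m : E) ∈ R := IntermediateField.natCast_mem R m
  have h4 := mul_mem (inv_mem h3) hmem
  rwa [← mul_assoc, inv_mul_cancel₀ hmE, one_mul] at h4

end fix

section uni

open Pool.Agent.Helper75.QC Pool.Agent.Helper9.TR

variable {O E : Type} [Field O] [Field E] [Algebra O E]

section wle

variable {w : Fin 3 → ℕ}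

theorem wle_X (i : Fin 3) : WLE w (w i) (MvPolynomial.X i : MvPolynomial (Fin 3) O) := by
  classical
  intro m hm
  rw [MvPolynomial.mem_support_iff, MvPolynomial.coeff_X] at hm
  have h1 : Finsupp.single i 1 = m := by
    by_contra h1
    rw [if_neg h1] at hm
    exact hm rfl
  subst h1
  rw [Finset.sum_eq_single i]
  · simp
  · intro j _ hj
    rw [Finsupp.single_eq_of_ne hj, mul_zero]
  · intro h
    exact absurd (Finset.mem_univ i) h

theorem wle_mul {D E : ℕ} {F G : MvPolynomial (Fin 3) O} (hF : WLE w D F) (hG : WLE w E G) :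
    WLE w (D + E) (F * G) := by
  classical
  intro m hm
  obtain ⟨m1, h1, m2, h2, rfl⟩ := Finset.mem_add.1 (MvPolynomial.support_mul _ _ hm)
  have h3 := hF m1 h1
  have h4 := hG m2 h2
  have h5 : ∑ i, w i * (m1 + m2) i = ∑ i, w i * m1 i + ∑ i, w i * m2 i := by
    rw [← Finset.sum_add_distrib]
    exact Finset.sum_congr rfl fun i _ => by rw [Finsupp.add_apply, mul_add]
  rw [h5]
  exact add_le_add h3 h4

end wle

theorem wle_aeval {D : ℕ} {A : O[X]} (hA : A.natDegree ≤ D) :
    WLE ![2, 3, 1] D (aeval (MvPolynomial.X 2 : MvPolynomial (Fin 3) O) A) := by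
  classical
  intro n hn
  rw [aeval_eq_sum_range, MvPolynomial.mem_support_iff, MvPolynomial.coeff_sum] at hn
  obtain ⟨i, hi, h1⟩ := Finset.exists_ne_zero_of_sum_ne_zero hn
  rw [MvPolynomial.coeff_smul, MvPolynomial.coeff_X_pow] at h1
  have h2 : Finsupp.single 2 i = n := by
    by_contra h3
    rw [if_neg h3, smul_zero] at h1
    exact h1 rfl
  rw [← h2, Fin.sum_univ_three]
  have h3 : i ≤ A.natDegree := by
    rw [Finset.mem_range] at hi
    omega
  have e0 : (Finsupp.single (2 : Fin 3) i) 0 = 0 := Finsupp.single_eq_of_ne (by decide)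
  have e1 : (Finsupp.single (2 : Fin 3) i) 1 = 0 := Finsupp.single_eq_of_ne (by decide)
  have e2 : (Finsupp.single (2 : Fin 3) i) 2 = i := Finsupp.single_eq_same
  rw [e0, e1, e2]
  change 2 * 0 + 3 * 0 + 1 * i ≤ D
  omega

/-- the equation -/
noncomputable def eqF (A B : O[X]) : MvPolynomial (Fin 3) O :=
  MvPolynomial.X 1 * MvPolynomial.X 1 + -(MvPolynomial.X 0 * MvPolynomial.X 0 * MvPolynomial.X 0 +
    aeval (MvPolynomial.X 2 : MvPolynomial (Fin 3) O) A * MvPolynomial.X 0 +
      aeval (MvPolynomial.X 2 : MvPolynomial (Fin 3) O) B)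

theorem aeval_eqF {S : Type} [CommRing S] [Algebra O S] (A B : O[X]) (x y u : S) :
    MvPolynomial.aeval ![x, y, u] (eqF A B) =
      y * y + -(x * x * x + aeval u A * x + aeval u B) := by
  have h : ∀ G : O[X], MvPolynomial.aeval ![x, y, u]
      (aeval (MvPolynomial.X 2 : MvPolynomial (Fin 3) O) G) = aeval u G := by
    intro G
    rw [← aeval_algHom_apply, MvPolynomial.aeval_X]
    rfl
  rw [eqF, map_add, map_neg, map_add, map_add, map_mul, map_mul, map_mul, map_mul, h, h,
    MvPolynomial.aeval_X, MvPolynomial.aeval_X]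
  rfl

/-- rational elliptic surfaces -/
theorem uniruled_rat [IsAlgClosed O] {A B : O[X]} (hA : A.natDegree ≤ 4) (hB : B.natDegree ≤ 6)
    {x y u : E} (h : y ^ 2 = x ^ 3 + aeval u A * x + aeval u B) :
    Uniruled O (adjoin O {x, y, u} : IntermediateField O E) 2 := by
  classical
  have h0 : WLE ![2, 3, 1] 2 (MvPolynomial.X 0 : MvPolynomial (Fin 3) O) := wle_X 0
  have h1 : WLE ![2, 3, 1] 3 (MvPolynomial.X 1 : MvPolynomial (Fin 3) O) := wle_X 1
  rw [← range_three]
  refine uni_surface ![2, 3, 1] (by rw [sum_three]; norm_num) (eqF A B) ?_ ?_ _ ?_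
  · intro hF
    have h2 := aeval_eqF A B (0 : O[X]) X 0
    have h3 : aeval (0 : O[X]) B = C (B.coeff 0) := by
      rw [← (algebraMap O O[X]).map_zero, aeval_algebraMap_apply, coeff_zero_eq_aeval_zero]
      rfl
    rw [hF, map_zero, mul_zero, mul_zero, zero_add, zero_add, ← sq, ← sub_eq_add_neg, h3] at h2
    exact X_pow_sub_C_ne_zero (by norm_num) _ h2.symm
  · rw [sum_three]
    exact (wle_mul h1 h1).add (((wle_mul (wle_mul h0 h0) h0).add
      (wle_mul (wle_aeval hA) h0)).add (wle_aeval hB)).neg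
  · rw [aeval_eqF, ← sq, h]
    ring

end uni

end Pool.Agent.Helper43.CH
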