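import Mathlib

/-! Project CHI. Homomorphisms from the field `O(x, y, w)`, `y ^ 2 = G(x, w)`. -/

set_option autoImplicit false

namespace Pool.Agent.Helper43.CH

open IntermediateField

section

variable {O E F : Type} [Field O] [Field E] [Algebra O E] [Field F] [Algebra O F]

/-- the embedding of a rational function field -/
theorem exists_rat {ι : Type} {x : ι → E} (hx : AlgebraicIndependent O x) {x' : ι → F}
    (hx' : AlgebraicIndependent O x') :
    ∃ e : adjoin O (Set.range x) →ₐ[O] F, ∀ (G : MvPolynomial ι O)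
      (z : adjoin O (Set.range x)), (z : E) = MvPolynomial.aeval x G →
        e z = MvPolynomial.aeval x' G := by
  refine ⟨(adjoin O (Set.range x')).val.comp
      (hx'.aevalEquivField.toAlgHom.comp hx.aevalEquivField.symm.toAlgHom), fun G z hz => ?_⟩
  have h2 : hx.aevalEquivField (algebraMap (MvPolynomial ι O)
      (FractionRing (MvPolynomial ι O)) G) = z := by
    apply Subtype.ext
    rw [hx.aevalEquivField_algebraMap_apply_coe, hz]
  have h3 : hx.aevalEquivField.symm z = algebraMap (MvPolynomial ι O)
      (FractionRing (MvPolynomial ι O)) G := by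
    rw [← h2, AlgEquiv.symm_apply_apply]
  change ((hx'.aevalEquivField (hx.aevalEquivField.symm z) : adjoin O (Set.range x')) : F) = _
  rw [h3, hx'.aevalEquivField_algebraMap_apply_coe]

/-- an element of the rational function field is a quotient of polynomials -/
theorem exists_quot {ι : Type} {x : ι → E} (hx : AlgebraicIndependent O x) {z : E}
    (hz : z ∈ adjoin O (Set.range x)) : ∃ p q : MvPolynomial ι O, q ≠ 0 ∧
      z * MvPolynomial.aeval x q = MvPolynomial.aeval x p := by
  obtain ⟨p, q, hq, h⟩ := IsFractionRing.div_surjective (A := MvPolynomial ι O)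
    (hx.aevalEquivField.symm ⟨z, hz⟩)
  have hq0 : q ≠ 0 := nonZeroDivisors.ne_zero hq
  refine ⟨p, q, hq0, ?_⟩
  have h1 : (⟨z, hz⟩ : adjoin O (Set.range x)) = hx.aevalEquivField
      (algebraMap (MvPolynomial ι O) (FractionRing (MvPolynomial ι O)) p) /
        hx.aevalEquivField (algebraMap (MvPolynomial ι O) (FractionRing (MvPolynomial ι O)) q) := by
    rw [← map_div₀, h, AlgEquiv.apply_symm_apply]
  have h2 := congrArg (fun a : adjoin O (Set.range x) => (a : E)) h1
  simp only [IntermediateField.coe_div, hx.aevalEquivField_algebraMap_apply_coe] at h2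
  have h3 : MvPolynomial.aeval x q ≠ 0 := by
    intro h0
    exact hq0 (hx.eq_zero_of_aeval_eq_zero q h0)
  rw [h2, div_mul_cancel₀ _ h3]

/-- Homomorphisms from `O(x, y, w)`, `y ^ 2 = G(x, w)`, where `G` is not a square. -/
theorem exists_hom {ι : Type} (G : MvPolynomial ι O)
    (hG : ∀ p q : MvPolynomial ι O, q ≠ 0 → p ^ 2 ≠ G * q ^ 2) {x : ι → E}
    (hx : AlgebraicIndependent O x) {y : E} (hy : y ^ 2 = MvPolynomial.aeval x G)
    (hg : adjoin O (insert y (Set.range x)) = ⊤) {x' : ι → F} (hx' : AlgebraicIndependent O x')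
    {y' : F} (hy' : y' ^ 2 = MvPolynomial.aeval x' G) :
    ∃ φ : E →ₐ[O] F, (∀ i, φ (x i) = x' i) ∧ φ y = y' := by
  obtain ⟨e, he⟩ := exists_rat hx hx'
  have hm : ∀ G : MvPolynomial ι O, MvPolynomial.aeval x G ∈ adjoin O (Set.range x) := by
    intro G
    have h1 := (MvPolynomial.aeval (R := O)
      (fun i => (⟨x i, subset_adjoin O _ ⟨i, rfl⟩⟩ : adjoin O (Set.range x))) G).2
    have h2 : ((MvPolynomial.aeval (R := O)
      (fun i => (⟨x i, subset_adjoin O _ ⟨i, rfl⟩⟩ : adjoin O (Set.range x))) G :
        adjoin O (Set.range x)) : E) = MvPolynomial.aeval x G := by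
      have := MvPolynomial.comp_aeval_apply (R := O)
        (fun i => (⟨x i, subset_adjoin O _ ⟨i, rfl⟩⟩ : adjoin O (Set.range x)))
        (adjoin O (Set.range x)).val G
      exact this
    rw [← h2]
    exact h1
  let g : adjoin O (Set.range x) := ⟨MvPolynomial.aeval x G, hm G⟩
  have hyn : y ∉ adjoin O (Set.range x) := by
    intro h
    obtain ⟨p, q, hq, h1⟩ := exists_quot hx h
    apply hG p q hq
    apply hx
    rw [map_pow, ← h1, map_mul, map_pow, ← hy]
    ring
  let _ : Algebra (adjoin O (Set.range x)) F := e.toRingHom.toAlgebra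
  have hal : ∀ z : adjoin O (Set.range x), algebraMap (adjoin O (Set.range x)) F z = e z :=
    fun _ => rfl
  let P : Polynomial (adjoin O (Set.range x)) := Polynomial.X ^ 2 - Polynomial.C g
  have hPm : P.Monic := Polynomial.monic_X_pow_sub_C g two_ne_zero
  have hPy : Polynomial.aeval y P = 0 := by
    simp only [P, map_sub, map_pow, Polynomial.aeval_X, Polynomial.aeval_C]
    rw [hy, sub_eq_zero]
    rfl
  have hint : IsIntegral (adjoin O (Set.range x)) y := ⟨P, hPm, hPy⟩
  have hirr : Irreducible P := by
    refine Polynomial.irreducible_of_degree_le_three_of_not_isRoot ?_ ?_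
    · rw [Polynomial.natDegree_X_pow_sub_C]
      exact Finset.mem_Icc.2 ⟨by norm_num, by norm_num⟩
    · intro z hz
      simp only [P, Polynomial.IsRoot, Polynomial.eval_sub, Polynomial.eval_pow, Polynomial.eval_X,
        Polynomial.eval_C, sub_eq_zero] at hz
      have h1 : (z : E) ^ 2 = y ^ 2 := by
        rw [hy, ← SubmonoidClass.coe_pow, hz]
      rcases sq_eq_sq_iff_eq_or_eq_neg.1 h1 with h | h
      · exact hyn (h ▸ z.2)
      · apply hyn
        have := neg_mem z.2
        rwa [h, neg_neg] at this
  have hmin : minpoly (adjoin O (Set.range x)) y = P :=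
    (minpoly.eq_of_irreducible_of_monic hirr hPy hPm).symm
  have hroot : y' ∈ (minpoly (adjoin O (Set.range x)) y).aroots F := by
    rw [hmin, Polynomial.mem_aroots]
    refine ⟨hPm.ne_zero, ?_⟩
    simp only [P, map_sub, map_pow, Polynomial.aeval_X, Polynomial.aeval_C]
    rw [hal, he G g rfl, hy', sub_self]
  let ψ := (algHomAdjoinIntegralEquiv (adjoin O (Set.range x)) hint).symm ⟨y', hroot⟩
  have hψy : ψ (AdjoinSimple.gen (adjoin O (Set.range x)) y) = y' :=
    algHomAdjoinIntegralEquiv_symm_apply_gen _ hint _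
  have htop : ∀ z : E, z ∈ adjoin (adjoin O (Set.range x)) {y} := by
    intro z
    have h1 : z ∈ adjoin O (insert y (Set.range x)) := by rw [hg]; trivial
    have h2 : adjoin O (insert y (Set.range x)) ≤
        (adjoin (adjoin O (Set.range x)) {y}).restrictScalars O := by
      rw [adjoin_le_iff]
      rintro a (ha | ⟨i, rfl⟩)
      · rw [ha]
        exact mem_adjoin_simple_self (adjoin O (Set.range x)) y
      · exact (adjoin (adjoin O (Set.range x)) {y}).algebraMap_mem
          ⟨x i, subset_adjoin O _ ⟨i, rfl⟩⟩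
    exact h2 h1
  let j : E →+* adjoin (adjoin O (Set.range x)) {y} :=
    { toFun := fun z => ⟨z, htop z⟩
      map_one' := rfl
      map_mul' := fun _ _ => rfl
      map_zero' := rfl
      map_add' := fun _ _ => rfl }
  have hj : ∀ z : adjoin O (Set.range x), ψ (j (z : E)) = e z := by
    intro z
    exact ψ.commutes z
  refine ⟨{ (ψ : adjoin (adjoin O (Set.range x)) {y} →+* F).comp j with
    commutes' := fun r => ?_ }, fun i => ?_, ?_⟩
  · change ψ (j (algebraMap O E r)) = _
    exact (hj (algebraMap O _ r)).trans (e.commutes r)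
  · change ψ (j (x i)) = _
    have h2 := he (MvPolynomial.X i) ⟨x i, subset_adjoin O _ ⟨i, rfl⟩⟩
      (by rw [MvPolynomial.aeval_X])
    rw [MvPolynomial.aeval_X] at h2
    exact (hj ⟨x i, subset_adjoin O _ ⟨i, rfl⟩⟩).trans h2
  · exact hψy

end

end Pool.Agent.Helper43.CH
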