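import Pool.Agent.Helper43.CH.Fix
import Pool.Agent.Helper43.AC7.Defs
import Pool.Agent.Helper43.AC.Uni

/-! Project CHI. The field `O(x, y, w)`: transcendence degree, fixed field, endomorphisms. -/

set_option autoImplicit false

namespace Pool.Agent.Helper43.CH

open IntermediateField Polynomial Pool.Agent.Helper43.AC7

variable {O E : Type} [Field O] [Field E] [Algebra O E] {m : ℕ} {A B : O[X]} {x y w : E}

theorem IsModel.trdeg (h : IsModel O m A B x y w) : Algebra.trdeg O E ≤ 2 := by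
  have hx : x ∈ adjoin O {x, w} := subset_adjoin O _ (Or.inl rfl)
  have hw : w ∈ adjoin O {x, w} := subset_adjoin O _ (Or.inr rfl)
  have hy : IsAlgebraic (adjoin O {x, w}) y := by
    apply IsAlgebraic.of_pow (n := 2) (by norm_num)
    have hp : ∀ G : O[X], aeval (w ^ m) G ∈ adjoin O {x, w} := by
      intro G
      rw [aeval_eq_sum_range]
      exact sum_mem fun i _ => (adjoin O {x, w}).smul_mem (pow_mem (pow_mem hw m) i)
    have h1 : y ^ 2 ∈ adjoin O {x, w} := by
      rw [h.eqn]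
      exact add_mem (add_mem (pow_mem hx 3) (mul_mem (hp A) hx)) (hp B)
    exact isAlgebraic_algebraMap (⟨_, h1⟩ : adjoin O {x, w})
  have h1 : ∀ z : E, IsAlgebraic (adjoin O {x, w}) z := by
    intro z
    have hz : z ∈ adjoin O {x, y, w} := by rw [h.gen]; trivial
    have h2 : adjoin O {x, y, w} ≤
        (algebraicClosure (adjoin O {x, w}) E).restrictScalars O := by
      rw [adjoin_le_iff]
      rintro a (ha | ha | ha)
      · rw [ha]
        exact mem_algebraicClosure_iff.2 (isAlgebraic_algebraMap (⟨x, hx⟩ : adjoin O {x, w}))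
      · rw [ha]
        exact mem_algebraicClosure_iff.2 hy
      · rw [ha]
        exact mem_algebraicClosure_iff.2 (isAlgebraic_algebraMap (⟨w, hw⟩ : adjoin O {x, w}))
    exact mem_algebraicClosure_iff.1 (h2 hz)
  have h2 : Algebra.IsAlgebraic (Algebra.adjoin O {x, w}) E := isAlgebraic_adjoin_iff_top.1 ⟨h1⟩
  refine (Algebra.IsAlgebraic.trdeg_le_cardinalMk O {x, w}).trans ?_
  refine (Cardinal.mk_insert_le).trans ?_
  rw [Cardinal.mk_singleton, one_add_one_eq_two]

theorem IsModel.fg (h : IsModel O m A B x y w) : (⊤ : IntermediateField O E).FG := by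
  classical
  refine ⟨({x, y, w} : Finset E), ?_⟩
  rw [← h.gen]
  simp

/-- the fixed field of the rotation -/
theorem IsModel.fixedField_le (h : IsModel O m A B x y w) (hm : (m : O) ≠ 0) {s : E ≃ₐ[O] E} {ζ : O}
    (hζ : IsPrimitiveRoot ζ m) (hx : s x = x) (hy : s y = y)
    (hw : s w = algebraMap O E ζ * w) :
    fixedField (Subgroup.zpowers s) ≤ adjoin O {x, y, w ^ m} := by
  intro z hz
  exact h.fixed hm hζ hx hy hw (hz ⟨s, Subgroup.mem_zpowers s⟩)

/-- the fixed field of the rotation is dominated by a product of curves -/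
theorem IsModel.isProduct [IsAlgClosed O] (h : IsModel O m A B x y w) (hA : A.natDegree ≤ 4)
    (hB : B.natDegree ≤ 6) :
    IsProduct O (adjoin O {x, y, w ^ m} : IntermediateField O E) :=
  Pool.Agent.Helper43.AC.isProduct_of_uniruled (uniruled_rat hA hB h.eqn)

/-- the endomorphisms which conjugate the rotation to its inverse -/
theorem IsModel.exists_conj (h : IsModel O m A B x y w) {s : E ≃ₐ[O] E} {ζ : O}
    (hζ : IsPrimitiveRoot ζ m) (hm : m ≠ 0) (hx : s x = x) (hy : s y = y)
    (hw : s w = algebraMap O E ζ * w) (hA : A.natDegree ≤ 4) (hB : B.natDegree ≤ 6) (j : ℕ)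
    (hc : (m ∣ ringExpChar O ^ j + 1 ∧ (∀ i, A.coeff i ^ ringExpChar O ^ j = A.coeff i) ∧
        ∀ i, B.coeff i ^ ringExpChar O ^ j = B.coeff i) ∨
      (m ∣ ringExpChar O ^ j - 1 ∧
        (∀ i ≤ 4, A.coeff i ^ ringExpChar O ^ j = A.coeff (4 - i)) ∧
        ∀ i ≤ 6, B.coeff i ^ ringExpChar O ^ j = B.coeff (6 - i))) :
    ∃ ψ : E →ₐ[O] E, ∀ z, ψ (s z) = s.symm (ψ z) := by
  rcases hc with ⟨hQ, ha, hb⟩ | ⟨hQ, ha, hb⟩
  · exact h.exists_frob (ringExpChar O) j hζ.pow_eq_one (hζ.ne_zero hm) hQ ha hb hx hy hw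
  · exact h.exists_herm (ringExpChar O) j hA hB hζ.pow_eq_one (hζ.ne_zero hm) hQ ha hb hx hy hw

end Pool.Agent.Helper43.CH
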