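import Pool.Agent.Helper43.CH.Model

/-! Project CHI. The field `O(x, y, w)`, `y ^ 2 = x ^ 3 + A(w ^ m) x + B(w ^ m)`: the automorphism
`w ↦ ζ w` and the endomorphisms which conjugate it to its inverse. -/

set_option autoImplicit false

namespace Pool.Agent.Helper43.CH

open IntermediateField Polynomial

section pow

variable {O E : Type} [Field O] [Field E] [Algebra O E] (p j : ℕ) [ExpChar E p]

/-- `A(u) ^ Q = A(u ^ Q)`, if `a_i ^ Q = a_i` -/
theorem pow_aeval {A : O[X]} (ha : ∀ i, A.coeff i ^ p ^ j = A.coeff i) (u : E) :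
    aeval u A ^ p ^ j = aeval (u ^ p ^ j) A := by
  rw [aeval_eq_sum_range, aeval_eq_sum_range, ← iterateFrobenius_def, map_sum]
  refine Finset.sum_congr rfl fun i _ => ?_
  rw [iterateFrobenius_def, _root_.smul_pow, ha, ← pow_mul, ← pow_mul, mul_comm i]

/-- `(A(u) / u ^ d) ^ Q = A(u ^ (- Q))`, if `a_i ^ Q = a_(d - i)` -/
theorem pow_aeval_reflect {A : O[X]} {d : ℕ} (hd : A.natDegree ≤ d)
    (ha : ∀ i ≤ d, A.coeff i ^ p ^ j = A.coeff (d - i)) {u : E} (hu : u ≠ 0) :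
    (aeval u A / u ^ d) ^ p ^ j = aeval (u⁻¹ ^ p ^ j) A := by
  have h1 : A.natDegree < d + 1 := by omega
  rw [aeval_eq_sum_range' h1, aeval_eq_sum_range' h1, Finset.sum_div, ← iterateFrobenius_def,
    map_sum, ← Finset.sum_range_reflect]
  refine Finset.sum_congr rfl fun i hi => ?_
  rw [Finset.mem_range] at hi
  have h2 : d + 1 - 1 - i = d - i := by omega
  have h3 : d - (d - i) = i := by omega
  rw [h2, iterateFrobenius_def, div_pow, _root_.smul_pow, ha (d - i) (by omega), h3, smul_div_assoc]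
  congr 1
  have h4 : u ^ d = u ^ (d - i) * u ^ i := by rw [← pow_add]; congr 1; omega
  have h5 : (u ^ (d - i)) ^ p ^ j ≠ 0 := pow_ne_zero _ (pow_ne_zero _ hu)
  rw [h4, mul_pow, div_mul_eq_div_div, div_self h5, inv_pow, inv_pow, ← pow_mul, ← pow_mul,
    mul_comm i, one_div]

end pow

section rot

variable {O E : Type} [Field O] [Field E] [Algebra O E] {m : ℕ} {A B : O[X]} {x y w : E}

theorem IsModel.w_ne (h : IsModel O m A B x y w) : w ≠ 0 := by
  intro h0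
  have h1 : Transcendental O w := h.ind.transcendental 1
  rw [h0] at h1
  exact h1 (isAlgebraic_zero (R := O) (A := E))

theorem IsModel.indep_mul (h : IsModel O m A B x y w) {c : O} (hc : c ≠ 0) :
    AlgebraicIndependent O ![x, algebraMap O E c * w] := by
  have h1 : ∀ z ∈ ({x, algebraMap O E c * w} : Set E),
      IsAlgebraic (adjoin O {x, algebraMap O E c * w}) z := fun z hz =>
    isAlgebraic_algebraMap (⟨z, subset_adjoin O _ hz⟩ :
      adjoin O {x, algebraMap O E c * w})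
  refine h.indep (h1 x (Or.inl rfl)) ?_
  have h2 := h1 (algebraMap O E c * w) (Or.inr rfl)
  have h3 : IsAlgebraic (adjoin O {x, algebraMap O E c * w})
      (algebraMap O E c⁻¹ * (algebraMap O E c * w)) := by
    refine IsAlgebraic.mul ?_ h2
    exact isAlgebraic_algebraMap
      (algebraMap O (adjoin O {x, algebraMap O E c * w} : IntermediateField O E) c⁻¹)
  rwa [← mul_assoc, ← map_mul, inv_mul_cancel₀ hc, map_one, one_mul] at h3

/-- the automorphism `w ↦ ζ w` -/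
theorem IsModel.exists_rot (h : IsModel O m A B x y w) {ζ : O} (hζ : ζ ^ m = 1) (hζ0 : ζ ≠ 0) :
    ∃ s : E ≃ₐ[O] E, s x = x ∧ s y = y ∧ s w = algebraMap O E ζ * w := by
  have key : ∀ c : O, c ^ m = 1 → c ≠ 0 →
      ∃ φ : E →ₐ[O] E, φ x = x ∧ φ y = y ∧ φ w = algebraMap O E c * w := by
    intro c hc hc0
    refine h.exists_hom (h.indep_mul hc0) ?_
    rw [mul_pow, ← map_pow, hc, map_one, one_mul]
    exact h.eqn
  obtain ⟨φ, h1, h2, h3⟩ := key ζ hζ hζ0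
  obtain ⟨φ', h1', h2', h3'⟩ := key ζ⁻¹ (by rw [inv_pow, hζ, inv_one]) (inv_ne_zero hζ0)
  refine ⟨AlgEquiv.ofAlgHom φ φ' ?_ ?_, h1, h2, h3⟩
  · refine h.ext ?_ ?_ ?_
    · change φ (φ' x) = x
      rw [h1', h1]
    · change φ (φ' y) = y
      rw [h2', h2]
    · change φ (φ' w) = w
      rw [h3', map_mul, AlgHom.commutes, h3, ← mul_assoc, ← map_mul, inv_mul_cancel₀ hζ0, map_one,
        one_mul]
  · refine h.ext ?_ ?_ ?_
    · change φ' (φ x) = x
      rw [h1, h1']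
    · change φ' (φ y) = y
      rw [h2, h2']
    · change φ' (φ w) = w
      rw [h3, map_mul, AlgHom.commutes, h3', ← mul_assoc, ← map_mul, mul_inv_cancel₀ hζ0, map_one,
        one_mul]

variable {s : E ≃ₐ[O] E} {ζ : O}

theorem symm_w (hζ0 : ζ ≠ 0) (hw : s w = algebraMap O E ζ * w) :
    s.symm w = algebraMap O E ζ⁻¹ * w := by
  rw [AlgEquiv.symm_apply_eq, map_mul, AlgEquiv.commutes, hw, ← mul_assoc, ← map_mul,
    inv_mul_cancel₀ hζ0, map_one, one_mul]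

theorem IsModel.pow_rot (h : IsModel O m A B x y w) (hζ : ζ ^ m = 1) (hx : s x = x) (hy : s y = y)
    (hw : s w = algebraMap O E ζ * w) : s ^ m = 1 := by
  have hz : ∀ z : E, s z = z → ∀ k : ℕ, (s ^ k) z = z := by
    intro z hz k
    induction k with
    | zero => rfl
    | succ k ih =>
      rw [pow_succ]
      change (s ^ k) (s z) = z
      rw [hz, ih]
  have hk : ∀ k : ℕ, (s ^ k) w = algebraMap O E ζ ^ k * w := by
    intro k
    induction k with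
    | zero => rw [pow_zero, pow_zero, one_mul]; rfl
    | succ k ih =>
      rw [pow_succ]
      change (s ^ k) (s w) = _
      rw [hw, map_mul, AlgEquiv.commutes, ih]
      ring
  have h1 : ((s ^ m : E ≃ₐ[O] E) : E →ₐ[O] E) = AlgHom.id O E := by
    refine h.ext (hz x hx m) (hz y hy m) ?_
    change (s ^ m) w = w
    rw [hk, ← map_pow, hζ, map_one, one_mul]
  apply AlgEquiv.ext
  intro z
  exact DFunLike.congr_fun h1 z

/-- **The Frobenius endomorphism** -/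
theorem IsModel.exists_frob (h : IsModel O m A B x y w) (p j : ℕ) [ExpChar O p]
    (hζ : ζ ^ m = 1) (hζ0 : ζ ≠ 0) (hQ : m ∣ p ^ j + 1) (ha : ∀ i, A.coeff i ^ p ^ j = A.coeff i)
    (hb : ∀ i, B.coeff i ^ p ^ j = B.coeff i) (hx : s x = x) (hy : s y = y)
    (hw : s w = algebraMap O E ζ * w) : ∃ ψ : E →ₐ[O] E, ∀ z, ψ (s z) = s.symm (ψ z) := by
  have hE : ExpChar E p := expChar_of_injective_algebraMap (algebraMap O E).injective p
  have hQ0 : 0 < p ^ j := expChar_pow_pos E p j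
  have key : ∃ ψ : E →ₐ[O] E, ψ x = x ^ p ^ j ∧ ψ y = y ^ p ^ j ∧ ψ w = w ^ p ^ j := by
    refine h.exists_hom (h.indep ?_ ?_) ?_
    · refine IsAlgebraic.of_pow hQ0 ?_
      exact isAlgebraic_algebraMap (⟨x ^ p ^ j, subset_adjoin O _ (Or.inl rfl)⟩ :
        adjoin O {x ^ p ^ j, w ^ p ^ j})
    · refine IsAlgebraic.of_pow hQ0 ?_
      exact isAlgebraic_algebraMap (⟨w ^ p ^ j, subset_adjoin O _ (Or.inr rfl)⟩ :
        adjoin O {x ^ p ^ j, w ^ p ^ j})
    · have e1 : (y ^ p ^ j) ^ 2 = (y ^ 2) ^ p ^ j := by rw [← pow_mul, ← pow_mul, mul_comm]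
      rw [e1, h.eqn, add_pow_expChar_pow, add_pow_expChar_pow, mul_pow, pow_aeval p j ha,
        pow_aeval p j hb]
      have e2 : (x ^ 3) ^ p ^ j = (x ^ p ^ j) ^ 3 := by rw [← pow_mul, ← pow_mul, mul_comm]
      have e3 : (w ^ m) ^ p ^ j = (w ^ p ^ j) ^ m := by rw [← pow_mul, ← pow_mul, mul_comm]
      rw [e2, e3]
  obtain ⟨ψ, h1, h2, h3⟩ := key
  refine ⟨ψ, fun z => ?_⟩
  have h4 : ψ.comp (s : E →ₐ[O] E) = (s.symm : E →ₐ[O] E).comp ψ := by
    refine h.ext ?_ ?_ ?_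
    · change ψ (s x) = s.symm (ψ x)
      rw [hx, h1, map_pow, (AlgEquiv.symm_apply_eq s).2 hx.symm]
    · change ψ (s y) = s.symm (ψ y)
      rw [hy, h2, map_pow, (AlgEquiv.symm_apply_eq s).2 hy.symm]
    · change ψ (s w) = s.symm (ψ w)
      rw [hw, map_mul, AlgHom.commutes, h3, map_pow, symm_w hζ0 hw, mul_pow, ← map_pow]
      congr 2
      obtain ⟨k, hk⟩ := hQ
      have h5 : ζ ^ (p ^ j + 1) = 1 := by rw [hk, pow_mul, hζ, one_pow]
      rw [inv_pow]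
      apply eq_inv_of_mul_eq_one_left
      rw [mul_comm, ← pow_succ, h5]
  exact DFunLike.congr_fun h4 z

/-- The composite of the Frobenius endomorphism and of the inversion of the base. -/
theorem IsModel.exists_herm0 (h : IsModel O m A B x y w) (p j : ℕ) [ExpChar O p]
    (hA : A.natDegree ≤ 4) (hB : B.natDegree ≤ 6)
    (ha : ∀ i ≤ 4, A.coeff i ^ p ^ j = A.coeff (4 - i))
    (hb : ∀ i ≤ 6, B.coeff i ^ p ^ j = B.coeff (6 - i)) : ∃ ψ : E →ₐ[O] E,
      ψ x = (x / w ^ (2 * m)) ^ p ^ j ∧ ψ y = (y / w ^ (3 * m)) ^ p ^ j ∧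
        ψ w = w⁻¹ ^ p ^ j := by
  have hE : ExpChar E p := expChar_of_injective_algebraMap (algebraMap O E).injective p
  have hQ0 : 0 < p ^ j := expChar_pow_pos E p j
  have hw0 : w ≠ 0 := h.w_ne
  have m1 : (x / w ^ (2 * m)) ^ p ^ j ∈ adjoin O {(x / w ^ (2 * m)) ^ p ^ j, w⁻¹ ^ p ^ j} :=
    subset_adjoin O _ (Or.inl rfl)
  have m2 : w⁻¹ ^ p ^ j ∈ adjoin O {(x / w ^ (2 * m)) ^ p ^ j, w⁻¹ ^ p ^ j} :=
    subset_adjoin O _ (Or.inr rfl)
  refine h.exists_hom (h.indep ?_ ?_) ?_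
  · refine IsAlgebraic.of_pow hQ0 ?_
    have e : x ^ p ^ j = (x / w ^ (2 * m)) ^ p ^ j / (w⁻¹ ^ p ^ j) ^ (2 * m) := by
      rw [div_pow, inv_pow, inv_pow, div_inv_eq_mul, ← pow_mul, ← pow_mul, mul_comm (p ^ j),
        div_mul_cancel₀ _ (pow_ne_zero _ hw0)]
    rw [e]
    exact isAlgebraic_algebraMap (⟨_, div_mem m1 (pow_mem m2 _)⟩ :
      adjoin O {(x / w ^ (2 * m)) ^ p ^ j, w⁻¹ ^ p ^ j})
  · refine IsAlgebraic.of_pow hQ0 ?_
    have e : w ^ p ^ j = (w⁻¹ ^ p ^ j)⁻¹ := by rw [inv_pow, inv_inv]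
    rw [e]
    exact isAlgebraic_algebraMap (⟨_, inv_mem m2⟩ :
      adjoin O {(x / w ^ (2 * m)) ^ p ^ j, w⁻¹ ^ p ^ j})
  · have hu : w ^ m ≠ 0 := pow_ne_zero _ hw0
    have e1 : ((y / w ^ (3 * m)) ^ p ^ j) ^ 2 = ((y / w ^ (3 * m)) ^ 2) ^ p ^ j := by
      rw [← pow_mul, ← pow_mul, mul_comm (p ^ j)]
    have e2 : (y / w ^ (3 * m)) ^ 2 = (x / w ^ (2 * m)) ^ 3 +
        aeval (w ^ m) A / (w ^ m) ^ 4 * (x / w ^ (2 * m)) + aeval (w ^ m) B / (w ^ m) ^ 6 := by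
      rw [div_pow, h.eqn]
      field_simp
      ring
    have e3 : (w⁻¹ ^ p ^ j) ^ m = (w ^ m)⁻¹ ^ p ^ j := by
      rw [← pow_mul, mul_comm, pow_mul, inv_pow]
    rw [e1, e2, add_pow_expChar_pow, add_pow_expChar_pow, mul_pow,
      pow_aeval_reflect p j hA ha hu, pow_aeval_reflect p j hB hb hu, e3]
    congr 2
    rw [← pow_mul, ← pow_mul, mul_comm (p ^ j)]

/-- **The hermitian endomorphism** -/
theorem IsModel.exists_herm (h : IsModel O m A B x y w) (p j : ℕ) [ExpChar O p]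
    (hA : A.natDegree ≤ 4) (hB : B.natDegree ≤ 6) (hζ : ζ ^ m = 1) (hζ0 : ζ ≠ 0)
    (hQ : m ∣ p ^ j - 1) (ha : ∀ i ≤ 4, A.coeff i ^ p ^ j = A.coeff (4 - i))
    (hb : ∀ i ≤ 6, B.coeff i ^ p ^ j = B.coeff (6 - i)) (hx : s x = x) (hy : s y = y)
    (hw : s w = algebraMap O E ζ * w) : ∃ ψ : E →ₐ[O] E, ∀ z, ψ (s z) = s.symm (ψ z) := by
  have hQ0 : 0 < p ^ j := expChar_pow_pos O p j
  obtain ⟨ψ, h1, h2, h3⟩ := h.exists_herm0 p j hA hB ha hb
  refine ⟨ψ, fun z => ?_⟩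
  have hm : ∀ k : ℕ, s.symm (w ^ (k * m)) = w ^ (k * m) := by
    intro k
    rw [map_pow, symm_w hζ0 hw, mul_pow, ← map_pow, inv_pow, mul_comm k, pow_mul ζ, hζ, one_pow,
      inv_one, map_one, one_mul]
  have h4 : ψ.comp (s : E →ₐ[O] E) = (s.symm : E →ₐ[O] E).comp ψ := by
    refine h.ext ?_ ?_ ?_
    · change ψ (s x) = s.symm (ψ x)
      rw [hx, h1, map_pow, map_div₀, hm, (AlgEquiv.symm_apply_eq s).2 hx.symm]
    · change ψ (s y) = s.symm (ψ y)
      rw [hy, h2, map_pow, map_div₀, hm, (AlgEquiv.symm_apply_eq s).2 hy.symm]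
    · change ψ (s w) = s.symm (ψ w)
      rw [hw, map_mul, AlgHom.commutes, h3, map_pow, map_inv₀, symm_w hζ0 hw, mul_inv, mul_pow,
        ← map_inv₀, inv_inv, ← map_pow]
      congr 2
      obtain ⟨k, hk⟩ := hQ
      have h5 : ζ ^ (p ^ j - 1) = 1 := by rw [hk, pow_mul, hζ, one_pow]
      have h6 : p ^ j = (p ^ j - 1) + 1 := by omega
      rw [h6, pow_succ, h5, one_mul]
  exact DFunLike.congr_fun h4 z

/-- **The involution** -/
theorem IsModel.exists_inv (h : IsModel O m A B x y w)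
    (hA : A.natDegree ≤ 4) (hB : B.natDegree ≤ 6) (hζ : ζ ^ m = 1) (hζ0 : ζ ≠ 0)
    (ha : ∀ i ≤ 4, A.coeff i = A.coeff (4 - i))
    (hb : ∀ i ≤ 6, B.coeff i = B.coeff (6 - i)) (hx : s x = x) (hy : s y = y)
    (hw : s w = algebraMap O E ζ * w) : ∃ ψ : E ≃ₐ[O] E,
      (∀ z, ψ (ψ z) = z) ∧ (∀ z, ψ (s z) = s.symm (ψ z)) ∧ ψ x = x / w ^ (2 * m) ∧
        ψ y = y / w ^ (3 * m) ∧ ψ w = w⁻¹ := by
  have hp : ExpChar O (ringExpChar O) := inferInstance
  obtain ⟨ψ, h1, h2, h3⟩ := h.exists_herm0 (ringExpChar O) 0 hA hB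
    (by simpa only [pow_zero, pow_one] using ha) (by simpa only [pow_zero, pow_one] using hb)
  rw [pow_zero, pow_one] at h1 h2 h3
  have h4 : ψ.comp (s : E →ₐ[O] E) = (s.symm : E →ₐ[O] E).comp ψ := by
    have hm : ∀ k : ℕ, s.symm (w ^ (k * m)) = w ^ (k * m) := by
      intro k
      rw [map_pow, symm_w hζ0 hw, mul_pow, ← map_pow, inv_pow, mul_comm k, pow_mul ζ, hζ, one_pow,
        inv_one, map_one, one_mul]
    refine h.ext ?_ ?_ ?_
    · change ψ (s x) = s.symm (ψ x)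
      rw [hx, h1, map_div₀, hm, (AlgEquiv.symm_apply_eq s).2 hx.symm]
    · change ψ (s y) = s.symm (ψ y)
      rw [hy, h2, map_div₀, hm, (AlgEquiv.symm_apply_eq s).2 hy.symm]
    · change ψ (s w) = s.symm (ψ w)
      rw [hw, map_mul, AlgHom.commutes, h3, map_inv₀, symm_w hζ0 hw, mul_inv, ← map_inv₀,
        inv_inv]
  have hw0 : w ≠ 0 := h.w_ne
  have h5 : ψ.comp ψ = AlgHom.id O E := by
    refine h.ext ?_ ?_ ?_
    · change ψ (ψ x) = x
      rw [h1, map_div₀, map_pow, h1, h3, inv_pow, div_inv_eq_mul,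
        div_mul_cancel₀ _ (pow_ne_zero _ hw0)]
    · change ψ (ψ y) = y
      rw [h2, map_div₀, map_pow, h2, h3, inv_pow, div_inv_eq_mul,
        div_mul_cancel₀ _ (pow_ne_zero _ hw0)]
    · change ψ (ψ w) = w
      rw [h3, map_inv₀, h3, inv_inv]
  exact ⟨AlgEquiv.ofAlgHom ψ ψ h5 h5, fun z => DFunLike.congr_fun h5 z,
    fun z => DFunLike.congr_fun h4 z, h1, h2, h3⟩

end rot

end Pool.Agent.Helper43.CH
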